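import Pool.Agent.Helper29.H2.St1

/-!
# Project H2, module BL: the sum over the primes `n + sh m`
-/

set_option autoImplicit false

noncomputable section

namespace Pool.Agent.Helper29.H2

open Finset MeasureTheory
open Pool.Agent.Helper90.MT (lam mat wt szA prt szU VV DD piDD Ok EqD Avd MP SW)
open Pool.Agent.Helper60.GP (IsB JJ)
open Pool.Agent.Helper15.AB (Th)
open Pool.Agent.Helper27.BG

/-- final assembly of the errors -/
private theorem fin_BL {S X F P O q M J ε : ℝ} (hq : 0 < q) (hM : 0 ≤ M) (hJ : 0 < J)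
    (hP : 0 ≤ P) (hε : 0 < ε) (h1 : |S - X / q * F| ≤ ε / 4 * (J * M / q * P))
    (h2 : |F - P * O| ≤ ε / 8 * P) (h3 : |X - J * M| ≤ J * M)
    (h4 : |X - J * M| * |O| ≤ ε / 4 * (J * M)) :
    |S - J * M / q * P * O| ≤ ε * (J * M / q * P) := by
  have hX : |X| ≤ 2 * (J * M) := by
    have hJM : |J * M| = J * M := abs_of_nonneg (by positivity)
    have : |X| ≤ |X - J * M| + |J * M| := by
      have := abs_add_le (X - J * M) (J * M)
      simpa using this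
    linarith
  have e1 : S - J * M / q * P * O =
      (S - X / q * F) + X / q * (F - P * O) + (X - J * M) / q * P * O := by
    field_simp
    ring
  have b2 : |X / q * (F - P * O)| ≤ ε / 4 * (J * M / q * P) := by
    rw [abs_mul, abs_div, abs_of_pos hq]
    calc |X| / q * |F - P * O| ≤ 2 * (J * M) / q * (ε / 8 * P) := by
          refine mul_le_mul (div_le_div_of_nonneg_right hX hq.le) h2 (abs_nonneg _) ?_
          positivity
      _ = ε / 4 * (J * M / q * P) := by ring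
  have b3 : |(X - J * M) / q * P * O| ≤ ε / 4 * (J * M / q * P) := by
    rw [abs_mul, abs_mul, abs_div, abs_of_pos hq, abs_of_nonneg hP]
    calc |X - J * M| / q * P * |O| = (|X - J * M| * |O|) * (P / q) := by ring
      _ ≤ (ε / 4 * (J * M)) * (P / q) := mul_le_mul_of_nonneg_right h4 (by positivity)
      _ = ε / 4 * (J * M / q * P) := by ring
  have hnn : 0 ≤ ε * (J * M / q * P) := by positivity
  rw [e1]
  refine (abs_add_three _ _ _).trans ?_
  linarith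

private theorem err_BL {Bq s l M J q ε x y : ℝ} (K : ℕ) (hl : 1 ≤ l) (hs1 : 1 ≤ s)
    (hsl : s ≤ l) (hM : 0 ≤ M) (hJ : 0 < J) (hq : 0 < q) (hε : 0 < ε) (hx0 : 0 ≤ x) (hxl : x ≤ l)
    (hy0 : 0 ≤ y) (hyl : y ≤ l) (hK : Bq ^ 2 * 2 ^ (2 * K) ≤ ε / 4 * (J / q) * l) :
    (Bq * s * (1 + x) ^ K) * (Bq * s * (1 + y) ^ K) * (M / l ^ (2 * K + 3)) ≤
      ε / 4 * (J * M / q * s ^ (K + 1)) := by
  have hl0 : 0 < l := by linarith
  have hx : (1 + x) ^ K ≤ (2 * l) ^ K := pow_le_pow_left₀ (by linarith) (by linarith) K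
  have hy : (1 + y) ^ K ≤ (2 * l) ^ K := pow_le_pow_left₀ (by linarith) (by linarith) K
  have hx1 : 0 ≤ (1 + x) ^ K := pow_nonneg (by linarith) K
  have hy1 : 0 ≤ (1 + y) ^ K := pow_nonneg (by linarith) K
  have hs2 : s ^ 2 ≤ l ^ 2 := pow_le_pow_left₀ (by linarith) hsl 2
  have h50 : (1 : ℝ) ≤ s ^ (K + 1) := one_le_pow₀ hs1
  have hXY : (1 + x) ^ K * (1 + y) ^ K ≤ 2 ^ (2 * K) * l ^ (2 * K) := by
    refine (mul_le_mul hx hy hy1 (pow_nonneg (by linarith) K)).trans (le_of_eq ?_)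
    rw [← pow_add, mul_pow, two_mul]
  have hl101 : l ^ (2 * K + 3) = l ^ (2 * K) * l ^ 3 := by rw [← pow_add]
  have hl98 : 0 < l ^ (2 * K) := pow_pos hl0 _
  rw [hl101]
  clear hx hy
  generalize (1 + x) ^ K = X at hXY hx1 ⊢
  generalize (1 + y) ^ K = Y at hXY hy1 ⊢
  generalize (2 : ℝ) ^ (2 * K) = K2 at hXY hK
  generalize l ^ (2 * K) = t at hXY hl98 ⊢
  generalize s ^ (K + 1) = z at h50 ⊢
  have hml : 0 ≤ M / (t * l ^ 3) := by positivity
  have a1 : s ^ 2 * (X * Y) ≤ l ^ 2 * (K2 * t) :=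
    mul_le_mul hs2 hXY (mul_nonneg hx1 hy1) (by positivity)
  have a2 : Bq ^ 2 * (s ^ 2 * (X * Y)) * (M / (t * l ^ 3)) ≤
      Bq ^ 2 * (l ^ 2 * (K2 * t)) * (M / (t * l ^ 3)) :=
    mul_le_mul_of_nonneg_right (mul_le_mul_of_nonneg_left a1 (sq_nonneg _)) hml
  have a3 : Bq ^ 2 * (l ^ 2 * (K2 * t)) * (M / (t * l ^ 3)) = Bq ^ 2 * K2 * (M / l) := by
    field_simp
  have a4 : Bq ^ 2 * K2 * (M / l) ≤ (ε / 4 * (J / q) * l) * (M / l) :=
    mul_le_mul_of_nonneg_right hK (by positivity)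
  have a5 : (ε / 4 * (J / q) * l) * (M / l) = ε / 4 * (J * M / q) * 1 := by
    field_simp
  have a6 : ε / 4 * (J * M / q) * 1 ≤ ε / 4 * (J * M / q) * z :=
    mul_le_mul_of_nonneg_left h50 (by positivity)
  have a7 : (Bq * s * X) * (Bq * s * Y) * (M / (t * l ^ 3)) =
      Bq ^ 2 * (s ^ 2 * (X * Y)) * (M / (t * l ^ 3)) := by ring
  have a8 : ε / 4 * (J * M / q) * z = ε / 4 * (J * M / q * z) := by ring
  linarith

private theorem SS_BL {W M : ℕ} (hM : 1 ≤ M) :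
    SS W M = (W.totient : ℝ) / W * (2499 / 10000 * Real.log M) := by
  unfold SS RR
  rw [Real.log_rpow (by exact_mod_cast hM)]

private theorem szU_BL {α ι : Type} [Fintype α] [DecidableEq α] [Fintype ι] [DecidableEq ι]
    (pr : α → ℕ) (hp : ∀ i, (pr i).Prime) (b b' : α → Option ι) :
    szU pr b b' ≤ szA pr b * szA pr b' := by
  unfold szU szA
  rw [← prod_mul_distrib]
  refine prod_le_prod' fun i _ => ?_
  have h := (hp i).pos
  by_cases h1 : b i = none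
  · by_cases h2 : b' i = none
    · simp [h1, h2]
    · simp [h1, h2]
  · by_cases h2 : b' i = none
    · simp [h1, h2]
    · simp only [h1, h2, false_and, if_false]
      nlinarith

/-- growth conditions, satisfied for large `M` -/
private theorem grow_BL (W s₀ : ℕ) (x₀ L : ℝ) : ∀ᶠ M : ℕ in Filter.atTop,
    s₀ ≤ M ∧ 1 ≤ M ∧ x₀ ≤ (M : ℝ) ∧ L ≤ Real.log M ∧
      ((W : ℝ) + 1) ≤ (M : ℝ) ^ (1 / 10000 : ℝ) := by
  have e1 : ∀ᶠ M : ℕ in Filter.atTop, s₀ ≤ M := Filter.eventually_ge_atTop s₀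
  have e2 : ∀ᶠ M : ℕ in Filter.atTop, 1 ≤ M := Filter.eventually_ge_atTop 1
  have e3 : ∀ᶠ M : ℕ in Filter.atTop, x₀ ≤ (M : ℝ) :=
    tendsto_natCast_atTop_atTop.eventually (Filter.eventually_ge_atTop x₀)
  have e4 : ∀ᶠ M : ℕ in Filter.atTop, L ≤ Real.log M :=
    (Real.tendsto_log_atTop.comp tendsto_natCast_atTop_atTop).eventually
      (Filter.eventually_ge_atTop L)
  have e5 : ∀ᶠ M : ℕ in Filter.atTop, ((W : ℝ) + 1) ≤ (M : ℝ) ^ (1 / 10000 : ℝ) :=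
    ((tendsto_rpow_atTop (by norm_num : (0 : ℝ) < 1 / 10000)).comp
      tendsto_natCast_atTop_atTop).eventually (Filter.eventually_ge_atTop _)
  filter_upwards [e1, e2, e3, e4, e5] with M h1 h2 h3 h4 h5 using ⟨h1, h2, h3, h4, h5⟩

/-- the level condition -/
private theorem level_BL {W M : ℕ} (hM : 1 ≤ M)
    (hW : ((W : ℝ) + 1) ≤ (M : ℝ) ^ (1 / 10000 : ℝ)) :
    (W : ℝ) * (RR M * RR M) ≤ (⌊(M : ℝ) ^ (4999 / 10000 : ℝ)⌋₊ : ℝ) := by
  have h0 : (0 : ℝ) < M := by exact_mod_cast hM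
  have h1M : (1 : ℝ) ≤ M := by exact_mod_cast hM
  have e1 : RR M * RR M = (M : ℝ) ^ (4998 / 10000 : ℝ) := by
    unfold RR
    rw [← Real.rpow_add h0]
    norm_num
  have e3 : (1 : ℝ) ≤ (M : ℝ) ^ (4998 / 10000 : ℝ) := Real.one_le_rpow h1M (by norm_num)
  have e4 : (M : ℝ) ^ (4999 / 10000 : ℝ) =
      (M : ℝ) ^ (1 / 10000 : ℝ) * (M : ℝ) ^ (4998 / 10000 : ℝ) := by
    rw [← Real.rpow_add h0]
    norm_num
  have e5 : (W : ℝ) * (M : ℝ) ^ (4998 / 10000 : ℝ) + 1 ≤ (M : ℝ) ^ (4999 / 10000 : ℝ) := by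
    rw [e4]
    nlinarith
  have e6 : (M : ℝ) ^ (4999 / 10000 : ℝ) < (⌊(M : ℝ) ^ (4999 / 10000 : ℝ)⌋₊ : ℝ) + 1 :=
    Nat.lt_floor_add_one _
  rw [e1]
  linarith

/-- BL. -/
theorem hBl : StBl := by
  intro hBil hFrm hLm hPrs hVbd hMrg hErr hMer hOkS hBVf hEta hVs0 hT ω hω hJ ι _ _ N G B sh m
    hN hB hGB ε hε
  obtain ⟨K, hK⟩ : ∃ K, K = Fintype.card ι := ⟨_, rfl⟩
  have hK1 : 1 ≤ K := by
    rw [hK]
    exact Fintype.card_pos_iff.mpr ⟨m⟩
  have hErr' := hErr hMer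
  obtain ⟨C, hC, hM4⟩ := hMer
  obtain ⟨Bq, hBq⟩ : ∃ Bq, Bq = B * C := ⟨_, rfl⟩
  have hBq0 : 0 ≤ Bq := by rw [hBq]; positivity
  obtain ⟨O, hO⟩ : ∃ O, O = OG N G m := ⟨_, rfl⟩
  obtain ⟨w1, hw1⟩ := hErr' (K - 1) (3 * K ^ 2 + 4 * K) (ε / (16 * (Bq ^ 2 + 1)))
    (by positivity)
  obtain ⟨w2, hw2⟩ := hVs0 ι m N G B hN hB hGB (ε / 16) (by positivity)
  refine ⟨max (max 1 (2 * K)) (max w1 w2), ?_⟩
  intro w hw W v hGd
  have hwa : 1 ≤ w := ((le_max_left _ _).trans (le_max_left _ _)).trans hw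
  have hwb : 2 * K ≤ w := ((le_max_right _ _).trans (le_max_left _ _)).trans hw
  have hww1 : w1 ≤ w := ((le_max_left _ _).trans (le_max_right _ _)).trans hw
  have hww2 : w2 ≤ w := ((le_max_right _ _).trans (le_max_right _ _)).trans hw
  have hW0 : 0 < W := hGd.dv.1
  have hq0 : 0 < (W.totient : ℝ) := by exact_mod_cast Nat.totient_pos.mpr hW0
  have hWr : (0 : ℝ) < W := by exact_mod_cast hW0
  obtain ⟨M1, h1⟩ := hOkS ι N sh w W v hN hwa (hK ▸ hwb) hGd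
  obtain ⟨M2, h2⟩ := hw1 w hww1 W hGd.dv
  obtain ⟨M3, h3⟩ := hw2 w hww2 W hGd.dv
  obtain ⟨M4, h4⟩ := hM4 W hW0
  obtain ⟨M5, h5⟩ := hBVf ω hω ((K + 1) ^ 2) (2 * K + 3)
  obtain ⟨Ce, hCe, M6, h6⟩ := hEta ω hω 0
  obtain ⟨e3, he3⟩ : ∃ e3, e3 = min (JJ ω) (ε * JJ ω / (4 * (|O| + 1))) := ⟨_, rfl⟩
  have he30 : 0 < e3 := by
    rw [he3]
    exact lt_min hJ (by positivity)
  obtain ⟨x7, h7⟩ := hT ω hω e3 he30
  obtain ⟨L, hL⟩ : ∃ L : ℝ, L = max 1 (max ((W : ℝ) / W.totient * (10000 / 2499))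
    (Bq ^ 2 * 2 ^ (2 * K) / (ε / 4 * (JJ ω / W.totient)))) := ⟨_, rfl⟩
  obtain ⟨M8, h8⟩ := Filter.eventually_atTop.mp (grow_BL W (sh m) x7 L)
  refine ⟨max M1 (max M2 (max M3 (max M4 (max M5 (max M6 M8))))), ?_⟩
  intro M hM
  have hMM1 : M1 ≤ M := (le_max_left _ _).trans hM
  have hM' := (le_max_right _ _).trans hM
  have hMM2 : M2 ≤ M := (le_max_left _ _).trans hM'
  have hM'' := (le_max_right _ _).trans hM'
  have hMM3 : M3 ≤ M := (le_max_left _ _).trans hM''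
  have hM3' := (le_max_right _ _).trans hM''
  have hMM4 : M4 ≤ M := (le_max_left _ _).trans hM3'
  have hM4' := (le_max_right _ _).trans hM3'
  have hMM5 : M5 ≤ M := (le_max_left _ _).trans hM4'
  have hM5' := (le_max_right _ _).trans hM4'
  have hMM6 : M6 ≤ M := (le_max_left _ _).trans hM5'
  have hMM8 : M8 ≤ M := (le_max_right _ _).trans hM5'
  obtain ⟨hOk, _, hRR, hszT⟩ := h1 M hMM1
  obtain ⟨hEr, _⟩ := h2 M hMM2
  have hVs := h3 M hMM3
  have hMe := h4 M hMM4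
  obtain ⟨E, hE0, hEq, hEs⟩ := h5 M hMM5
  obtain ⟨_, _, _, _, hfp, _⟩ := h6 M hMM6
  obtain ⟨g1, g2, g3, g4, g5⟩ := h8 M hMM8
  have hMr : (0 : ℝ) < M := by exact_mod_cast g2
  -- the size parameters
  obtain ⟨l, hl⟩ : ∃ l, l = Real.log M := ⟨_, rfl⟩
  rw [← hl] at g4
  have hl1 : 1 ≤ l := (le_max_left _ _).trans (hL ▸ g4)
  have hSS : SS W M = (W.totient : ℝ) / W * (2499 / 10000 * l) := by rw [hl]; exact SS_BL g2
  obtain ⟨s, hs⟩ : ∃ s, s = SS W M := ⟨_, rfl⟩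
  have hs1 : 1 ≤ s := by
    have k1 : (W : ℝ) / W.totient * (10000 / 2499) ≤ l :=
      ((le_max_left _ _).trans (le_max_right _ _)).trans (hL ▸ g4)
    rw [hs, hSS]
    calc (1 : ℝ) = (W.totient : ℝ) / W * (2499 / 10000 * ((W : ℝ) / W.totient * (10000 / 2499))) := by
          field_simp
      _ ≤ (W.totient : ℝ) / W * (2499 / 10000 * l) := by
          refine mul_le_mul_of_nonneg_left ?_ (by positivity)
          exact mul_le_mul_of_nonneg_left k1 (by norm_num)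
  have hsl : s ≤ l := by
    rw [hs, hSS]
    have k1 : (W.totient : ℝ) / W ≤ 1 := by
      rw [div_le_one hWr]
      exact_mod_cast Nat.totient_le W
    have k2 : (0 : ℝ) ≤ 2499 / 10000 * l := by positivity
    calc (W.totient : ℝ) / W * (2499 / 10000 * l) ≤ 1 * (2499 / 10000 * l) :=
          mul_le_mul_of_nonneg_right k1 k2
      _ ≤ l := by linarith
  have hKl : Bq ^ 2 * 2 ^ (2 * K) ≤ ε / 4 * (JJ ω / W.totient) * l := by
    have k1 : Bq ^ 2 * 2 ^ (2 * K) / (ε / 4 * (JJ ω / W.totient)) ≤ l :=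
      ((le_max_right _ _).trans (le_max_right _ _)).trans (hL ▸ g4)
    rw [div_le_iff₀ (by positivity)] at k1
    linarith
  -- the function
  have hprime := hOk.prime
  have hinj := hOk.inj
  obtain ⟨Z, hZ⟩ : ∃ Z, Z = RR M := ⟨_, rfl⟩
  have hZ1 : 1 ≤ Z := hZ ▸ hRR.le
  have hYB : ∀ a : Pw W M → Option ι, |YG N G W M a| ≤ B := fun a => hGB.1 _ _
  have hYS : ∀ a : Pw W M → Option ι, YG N G W M a ≠ 0 → (szA (pw W M) a : ℝ) ≤ Z := by
    intro a ha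
    have h := hszT a N (hGB.2 _ _ ha).2
    rwa [div_self (by exact_mod_cast hN.ne' : (N : ℝ) ≠ 0), Real.rpow_one, ← hZ] at h
  obtain ⟨hV1, hV2⟩ := hVbd (Pw W M) ι (pw W M) m (YG N G W M) B Z hprime hB.le hYB hYS
  obtain ⟨Y, hY⟩ : ∃ Y, Y = Vm (pw W M) m (YG N G W M) := ⟨_, rfl⟩
  rw [← hY] at hV1 hV2
  have hYY : ∀ a : Pw W M → Option ι, |Y a| ≤ Bq * s := fun a =>
    (hV1 a).trans ((mul_le_mul_of_nonneg_left (hs ▸ hMe) hB.le).trans
      (le_of_eq (by rw [hBq]; ring)))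
  have hYA : ∀ a : Pw W M → Option ι, Y a ≠ 0 → Avd {m} a := fun a ha => (hV2 a ha).1
  have hYZ : ∀ a : Pw W M → Option ι, Y a ≠ 0 → (szA (pw W M) a : ℝ) ≤ Z :=
    fun a ha => (hV2 a ha).2
  have hlog : Real.log Z ≤ l := by
    rw [hZ]
    unfold RR
    rw [Real.log_rpow hMr, ← hl]
    linarith
  have hlog0 : 0 ≤ Real.log Z := Real.log_nonneg hZ1
  obtain ⟨l1, l2, _⟩ := hLm (Pw W M) ι (pw W M) Y (Bq * s) Z hprime hinj hZ1 hYY hYZ
  obtain ⟨Qm, hQm⟩ : ∃ Qm, Qm = ⌊(M : ℝ) ^ (4999 / 10000 : ℝ)⌋₊ := ⟨_, rfl⟩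
  have hlev : (W : ℝ) * (Z * Z) ≤ Qm := by
    rw [hZ, hQm]
    exact level_BL g2 g5
  have hlt : ∀ n, fM ω M n ≠ 0 → n.Prime ∧ n ∈ Ioc M (4 * M) ∧ ∀ i, pw W M i < n := by
    intro n hn
    obtain ⟨k1, k2⟩ := hfp n hn
    refine ⟨k1, k2, fun i => ?_⟩
    have k3 : (i : ℕ) ∈ Pw W M := i.2
    unfold Pw at k3
    rw [Finset.mem_filter, Finset.mem_range] at k3
    rw [Finset.mem_Ioc] at k2
    show (i : ℕ) < n
    omega
  -- the bilinear form
  have bil := hBil (Pw W M) ι (pw W M) sh W v m Y Y M Qm (fM ω M) E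
    (Th ω M) hOk hE0 hlt g1 (by
      intro q a hq hqQ haq
      refine hEq q a hq ?_ haq
      rw [hQm] at hqQ
      exact (Nat.le_floor_iff (by positivity)).mp hqQ) (by
      intro b1 b2 k1 k2
      have k3 : ((W * szU (pw W M) b1 b2 : ℕ) : ℝ) ≤ Qm := by
        refine le_trans ?_ hlev
        push_cast
        refine mul_le_mul_of_nonneg_left ?_ hWr.le
        calc (szU (pw W M) b1 b2 : ℝ) ≤ (szA (pw W M) b1 : ℝ) * szA (pw W M) b2 := by
              exact_mod_cast szU_BL (pw W M) hprime b1 b2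
          _ ≤ Z * Z := mul_le_mul (l2 b1 k1) (l2 b2 k2) (Nat.cast_nonneg _)
              (zero_le_one.trans hZ1)
      exact_mod_cast k3)
  have prs := hPrs (Pw W M) ι (pw W M) (lam (pw W M) Y) (lam (pw W M) Y)
    _ _ Z Z W Qm E hprime hinj hW0 l1 l1 l2 l2 hlev hE0
  have hfrm := hFrm (Pw W M) ι (pw W M) m Y Y (Bq * s) (Bq * s) hprime
    hYY hYY hYA hYA
  rw [← hK] at prs hfrm
  obtain ⟨F, hF⟩ : ∃ F, F = ∑ b, ∑ b', (∏ i, MP m (pw W M i) (b i) (b' i)) *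
    (lam (pw W M) Y b * lam (pw W M) Y b') := ⟨_, rfl⟩
  rw [← hF] at bil hfrm
  -- first error
  have err1 : |∑ n ∈ (range (4 * M + 1)).filter (fun n => n ≡ v [MOD W]), fM ω M (n + sh m) *
      (LF (pw W M) sh Y n * LF (pw W M) sh Y n) -
      Th ω M / W.totient * F| ≤ ε / 4 * (JJ ω * M / W.totient * s ^ (K + 1)) := by
    refine bil.trans (prs.trans ?_)
    have k0 : (0 : ℝ) ≤ Bq * s * (1 + Real.log Z) ^ K * (Bq * s * (1 + Real.log Z) ^ K) := by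
      positivity
    have k1 : ∑ q ∈ Icc 1 Qm, (((K + 1) ^ 2 : ℕ) : ℝ) ^ q.primeFactors.card * E q ≤
        (M : ℝ) / l ^ (2 * K + 3) := by
      rw [hQm, hl]
      exact hEs
    refine (mul_le_mul_of_nonneg_left k1 k0).trans ?_
    exact err_BL K hl1 hs1 hsl hMr.le hJ hq0 hε hlog0 hlog hlog0 hlog hKl
  -- the form
  have hdiag : ∑ a, Y a * Y a / szA (pw W M) a =
      ∑ a, Vm (pw W M) m (YG N G W M) a ^ 2 / szA (pw W M) a := by
    refine Finset.sum_congr rfl fun a _ => ?_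
    rw [hY, sq]
  have err2 : |F - s ^ (K + 1) * O| ≤ ε / 8 * s ^ (K + 1) := by
    have hpow : s ^ (K + 1) = s * s * s ^ (K - 1) := by
      obtain ⟨k, rfl⟩ : ∃ k, K = k + 1 := ⟨K - 1, by omega⟩
      simp only [Nat.add_sub_cancel]
      ring
    have k1 : Bq * s * (Bq * s) * Er (pw W M) (K - 1) (3 * K ^ 2 + 4 * K) ≤
        ε / 16 * s ^ (K + 1) := by
      have k2 : Er (pw W M) (K - 1) (3 * K ^ 2 + 4 * K) ≤
          ε / (16 * (Bq ^ 2 + 1)) * s ^ (K - 1) := by rw [hs]; exact hEr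
      calc Bq * s * (Bq * s) * Er (pw W M) (K - 1) (3 * K ^ 2 + 4 * K) ≤
            Bq * s * (Bq * s) * (ε / (16 * (Bq ^ 2 + 1)) * s ^ (K - 1)) :=
            mul_le_mul_of_nonneg_left k2 (by positivity)
        _ = (Bq ^ 2 / (Bq ^ 2 + 1)) * (ε / 16 * s ^ (K + 1)) := by
            rw [hpow]
            field_simp
        _ ≤ 1 * (ε / 16 * s ^ (K + 1)) := by
            refine mul_le_mul_of_nonneg_right ?_ (by positivity)
            rw [div_le_one (by positivity)]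
            linarith
        _ = ε / 16 * s ^ (K + 1) := one_mul _
    have k3 : |F - ∑ a, Y a * Y a / szA (pw W M) a| ≤ ε / 16 * s ^ (K + 1) :=
      hfrm.trans k1
    have k4 : |∑ a, Y a * Y a / szA (pw W M) a - s ^ (K + 1) * O| ≤
        ε / 16 * s ^ (K + 1) := by
      rw [hdiag, hO, hs, hK]
      exact hVs
    calc |F - s ^ (K + 1) * O| ≤ |F - ∑ a, Y a * Y a / szA (pw W M) a| +
          |∑ a, Y a * Y a / szA (pw W M) a - s ^ (K + 1) * O| := abs_sub_le _ _ _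
      _ ≤ ε / 8 * s ^ (K + 1) := by linarith
  have hTh := h7 M g3
  have err3 : |Th ω M - JJ ω * M| ≤ JJ ω * M := by
    refine hTh.trans (mul_le_mul_of_nonneg_right ?_ hMr.le)
    rw [he3]
    exact min_le_left _ _
  have err4 : |Th ω M - JJ ω * M| * |O| ≤ ε / 4 * (JJ ω * M) := by
    have k1 : e3 * |O| ≤ ε / 4 * JJ ω := by
      have k2 : e3 ≤ ε * JJ ω / (4 * (|O| + 1)) := he3 ▸ min_le_right _ _
      calc e3 * |O| ≤ ε * JJ ω / (4 * (|O| + 1)) * |O| :=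
            mul_le_mul_of_nonneg_right k2 (abs_nonneg _)
        _ = (|O| / (|O| + 1)) * (ε / 4 * JJ ω) := by field_simp
        _ ≤ 1 * (ε / 4 * JJ ω) := by
            refine mul_le_mul_of_nonneg_right ?_ (by positivity)
            rw [div_le_one (by positivity)]
            linarith
        _ = ε / 4 * JJ ω := one_mul _
    calc |Th ω M - JJ ω * M| * |O| ≤ (e3 * M) * |O| :=
          mul_le_mul_of_nonneg_right hTh (abs_nonneg _)
      _ = (e3 * |O|) * M := by ring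
      _ ≤ (ε / 4 * JJ ω) * M := mul_le_mul_of_nonneg_right k1 hMr.le
      _ = ε / 4 * (JJ ω * M) := by ring
  -- passage to the marginal
  have hmarg : ∑ n ∈ (range (4 * M + 1)).filter (fun n => n ≡ v [MOD W]), fM ω M (n + sh m) *
      LF (pw W M) sh (YG N G W M) n ^ 2 =
      ∑ n ∈ (range (4 * M + 1)).filter (fun n => n ≡ v [MOD W]), fM ω M (n + sh m) *
      (LF (pw W M) sh Y n * LF (pw W M) sh Y n) := by
    refine Finset.sum_congr rfl fun n _ => ?_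
    by_cases h0 : fM ω M (n + sh m) = 0
    · rw [h0, zero_mul, zero_mul]
    · obtain ⟨hpr, _, hlt'⟩ := hlt _ h0
      have hnd : ∀ i, ¬ pw W M i ∣ n + sh m := by
        intro i hi
        have k1 := (Nat.prime_dvd_prime_iff_eq (hprime i) hpr).1 hi
        have k2 := hlt' i
        omega
      rw [hMrg (Pw W M) ι (pw W M) sh m (YG N G W M) n hprime hnd, ← hY, sq]
  rw [hmarg, ← hO, ← hs, ← hK]
  exact fin_BL hq0 hMr.le hJ (by positivity) hε err1 err2 err3 err4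

end Pool.Agent.Helper29.H2
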